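import Pool.Agent.U34.TL.Graph

/-! The blocks of the graph of the free product. -/

set_option autoImplicit false

open Monoid Monoid.CoprodI

namespace Pool.Agent.U34.TL

variable {ι A : Type} [Group A]

/-- the coset `A_i v` -/
def coset (i : ι) (v : FP ι A) : Set (FP ι A) := {x | ∃ a : A, x = lt i a * v}

/-- the subgraph induced by a set -/
def ind {V : Type*} (G : SimpleGraph V) (S : Set V) : G.Subgraph := (⊤ : G.Subgraph).induce S

lemma ind_verts {V : Type*} (G : SimpleGraph V) (S : Set V) : (ind G S).verts = S := rfl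

lemma ind_adj {V : Type*} (G : SimpleGraph V) (S : Set V) (x y : V) :
    (ind G S).Adj x y ↔ x ∈ S ∧ y ∈ S ∧ G.Adj x y := by
  simp [ind]

lemma le_ind {V : Type*} {G : SimpleGraph V} {S : Set V} {H : G.Subgraph} (h : H.verts ⊆ S) :
    H ≤ ind G S := by
  refine ⟨h, ?_⟩
  intro x y hxy
  rw [ind_adj]
  exact ⟨h hxy.fst_mem, h hxy.snd_mem, hxy.adj_sub⟩

/-- complete subgraphs are preconnected -/
lemma precon_of_complete {V : Type*} {G : SimpleGraph V} {H : G.Subgraph}
    (h : ∀ x ∈ H.verts, ∀ y ∈ H.verts, x ≠ y → H.Adj x y) : H.Preconnected := by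
  constructor
  rintro ⟨x, hx⟩ ⟨y, hy⟩
  by_cases hxy : x = y
  · subst hxy; exact SimpleGraph.Reachable.refl _
  · exact SimpleGraph.Adj.reachable (h x hx y hy hxy)

lemma conn_of_complete {V : Type*} {G : SimpleGraph V} {H : G.Subgraph}
    (h : ∀ x ∈ H.verts, ∀ y ∈ H.verts, x ≠ y → H.Adj x y) (hne : H.verts.Nonempty) :
    H.Connected ∧ ∀ v ∈ H.verts, (H.deleteVerts {v}).Preconnected := by
  constructor
  · rw [SimpleGraph.Subgraph.connected_iff]
    exact ⟨precon_of_complete h, hne⟩
  · intro v _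
    apply precon_of_complete
    intro x hx y hy hxy
    rw [SimpleGraph.Subgraph.deleteVerts_verts] at hx hy
    rw [SimpleGraph.Subgraph.deleteVerts_adj]
    exact ⟨hx.1, hx.2, hy.1, hy.2, h x hx.1 y hy.1 hxy⟩


/-- every pair of vertices of a preconnected subgraph is joined by a walk inside it -/
lemma walk_of_precon {V : Type*} {G : SimpleGraph V} {H : G.Subgraph} (h : H.Preconnected)
    {x y : V} (hx : x ∈ H.verts) (hy : y ∈ H.verts) :
    ∃ p : G.Walk x y, (∀ z ∈ p.support, z ∈ H.verts) ∧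
      ∀ a b, s(a, b) ∈ p.edges → H.Adj a b := by
  obtain ⟨p, hp⟩ := (SimpleGraph.Subgraph.preconnected_iff_forall_exists_walk_subgraph H).mp h hx hy
  refine ⟨p, ?_, ?_⟩
  · intro z hz
    exact hp.1 (by rwa [SimpleGraph.Walk.mem_verts_toSubgraph])
  · intro a b hab
    apply hp.2
    rw [← SimpleGraph.Subgraph.mem_edgeSet, SimpleGraph.Walk.mem_edges_toSubgraph]
    exact hab

lemma mem_coset_self (i : ι) (v : FP ι A) : v ∈ coset i v := ⟨1, by simp⟩

lemma coset_eq {i : ι} {v x : FP ι A} (h : x ∈ coset i v) : coset i x = coset i v := by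
  obtain ⟨a, rfl⟩ := h
  ext z
  constructor
  · rintro ⟨b, rfl⟩
    exact ⟨b * a, by rw [← mul_assoc, ← map_mul]⟩
  · rintro ⟨b, rfl⟩
    exact ⟨b * a⁻¹, by rw [← mul_assoc, ← map_mul]; simp⟩

lemma coset_adj {i : ι} {v x y : FP ι A} (hx : x ∈ coset i v) (hy : y ∈ coset i v) (hxy : x ≠ y) :
    (cay ι A).Adj x y := by
  rw [← coset_eq hx] at hy
  obtain ⟨a, rfl⟩ := hy
  refine ⟨i, a, ?_, rfl⟩
  rintro rfl
  simp at hxy

lemma lst_coset {i : ι} {v x : FP ι A} (hx : x ∈ coset i v) (hxv : x ≠ v) :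
    lst (x * v⁻¹) = some i := by
  obtain ⟨a, rfl⟩ := hx
  rw [mul_inv_cancel_right]
  apply lst_of
  rintro rfl
  simp at hxv

lemma coset_complete (i : ι) (v : FP ι A) : ∀ x ∈ (ind (cay ι A) (coset i v)).verts,
    ∀ y ∈ (ind (cay ι A) (coset i v)).verts, x ≠ y → (ind (cay ι A) (coset i v)).Adj x y := by
  intro x hx y hy hxy
  rw [ind_verts] at hx hy
  rw [ind_adj]
  exact ⟨hx, hy, coset_adj hx hy hxy⟩

/-- a connected subgraph without cut vertex lies in a coset -/
lemma sub_coset [Nonempty ι] {H : (cay ι A).Subgraph} (hc : H.Connected)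
    (hcut : ∀ v ∈ H.verts, (H.deleteVerts {v}).Preconnected) :
    ∃ (i : ι) (v : FP ι A), v ∈ H.verts ∧ H ≤ ind (cay ι A) (coset i v) := by
  obtain ⟨x, hx⟩ := hc.nonempty
  by_cases hall : ∀ y ∈ H.verts, y = x
  · obtain ⟨i⟩ := (inferInstance : Nonempty ι)
    refine ⟨i, x, hx, le_ind ?_⟩
    intro y hy
    rw [hall y hy]
    exact mem_coset_self i x
  · push Not at hall
    obtain ⟨y, hy, hyx⟩ := hall
    obtain ⟨p, hp, hpe⟩ := walk_of_precon hc.preconnected hx hy
    -- the first step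
    obtain ⟨x₁, hx₁⟩ : ∃ x₁, H.Adj x x₁ := by
      cases p with
      | nil => exact absurd rfl hyx
      | @cons _ b _ h q => exact ⟨b, hpe x b (by simp)⟩
    obtain ⟨i, a, ha, hax⟩ := hx₁.adj_sub
    refine ⟨i, x, hx, le_ind ?_⟩
    intro z hz
    by_contra hzS
    obtain ⟨q, hq, hqe⟩ := walk_of_precon hc.preconnected hx hz
    obtain ⟨d, hd, hd1, hd2⟩ := q.exists_boundary_dart (coset i x) (mem_coset_self i x) hzS
    set v := d.fst with hv
    set z' := d.snd with hz'
    have hadjH : H.Adj v z' := hqe v z' (List.mem_map_of_mem (f := SimpleGraph.Dart.edge) hd)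
    have hvH : v ∈ H.verts := hadjH.fst_mem
    have hz'H : z' ∈ H.verts := hadjH.snd_mem
    -- another vertex of the coset
    obtain ⟨u, huH, huS, huv⟩ : ∃ u, u ∈ H.verts ∧ u ∈ coset i x ∧ u ≠ v := by
      by_cases hxv : x = v
      · refine ⟨x₁, hx₁.snd_mem, ⟨a, hax⟩, ?_⟩
        rw [← hxv]
        exact hx₁.adj_sub.ne'
      · exact ⟨x, hx, mem_coset_self i x, hxv⟩
    have hz'v : z' ≠ v := hadjH.adj_sub.ne'
    have m1 : u ∈ (H.deleteVerts {v}).verts := by
      rw [SimpleGraph.Subgraph.deleteVerts_verts]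
      exact ⟨huH, huv⟩
    have m2 : z' ∈ (H.deleteVerts {v}).verts := by
      rw [SimpleGraph.Subgraph.deleteVerts_verts]
      exact ⟨hz'H, hz'v⟩
    obtain ⟨r, hr, _⟩ := walk_of_precon (hcut v hvH) m1 m2
    have hrv : v ∉ r.support := by
      intro h
      have := hr v h
      rw [SimpleGraph.Subgraph.deleteVerts_verts] at this
      exact this.2 rfl
    have e := sep r hrv
    rw [← coset_eq hd1] at huS
    rw [lst_coset huS huv] at e
    obtain ⟨j, b, hb, hbz⟩ := hadjH.adj_sub
    rw [hbz, mul_inv_cancel_right, lst_of hb] at e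
    have hij : i = j := Option.some.inj e
    subst hij
    apply hd2
    rw [← coset_eq hd1]
    exact ⟨b, hbz⟩

lemma coset_inj [Nontrivial A] {i j : ι} {v w : FP ι A} (h : coset i v ⊆ coset j w) :
    i = j ∧ coset i v = coset j w := by
  have hv : v ∈ coset j w := h (mem_coset_self i v)
  rw [← coset_eq hv] at h ⊢
  obtain ⟨a, ha⟩ := exists_ne (1 : A)
  have hm : lt i a * v ∈ coset i v := ⟨a, rfl⟩
  have hne : lt i a * v ≠ v := by
    intro h'
    rw [mul_eq_right] at h'
    exact of_ne_one ha h'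
  have e1 := lst_coset hm hne
  have e2 := lst_coset (h hm) hne
  rw [e1] at e2
  have hij : i = j := Option.some.inj e2
  subst hij
  exact ⟨rfl, rfl⟩

/-- The blocks are exactly the cosets. -/
lemma isBlock_iff [Nonempty ι] [Nontrivial A] (H : (cay ι A).Subgraph) :
    IsBlock (cay ι A) H ↔ ∃ (i : ι) (v : FP ι A), v ∈ H.verts ∧
      H = ind (cay ι A) (coset i v) := by
  constructor
  · intro hH
    obtain ⟨i, v, hv, hle⟩ := sub_coset hH.prop.1 hH.prop.2
    refine ⟨i, v, hv, le_antisymm hle ?_⟩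
    exact hH.le_of_ge (conn_of_complete (coset_complete i v) ⟨v, mem_coset_self i v⟩) hle
  · rintro ⟨i, v, hv, rfl⟩
    refine ⟨conn_of_complete (coset_complete i v) ⟨v, mem_coset_self i v⟩, ?_⟩
    intro K hK hle
    obtain ⟨j, w, hw, hKle⟩ := sub_coset hK.1 hK.2
    have h1 : coset i v ⊆ coset j w := fun x hx => hKle.1 (hle.1 hx)
    obtain ⟨hij, heq⟩ := coset_inj h1
    rw [heq]
    exact hKle

lemma coset_card (i : ι) (v : FP ι A) : Cardinal.mk (coset i v) = Cardinal.mk A := by
  refine (Cardinal.mk_congr (Equiv.ofBijective (fun a : A => (⟨lt i a * v, a, rfl⟩ : coset i v)) ?_)).symm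
  constructor
  · intro a b hab
    have h := congrArg Subtype.val hab
    exact of_injective i (mul_right_cancel h)
  · rintro ⟨x, a, rfl⟩
    exact ⟨a, rfl⟩

/-- The graph of the free product is tree-like. -/
theorem cay_treelike [Nonempty ι] [Nontrivial A] :
    IsTreeLike (cay ι A) (Cardinal.mk ι) (Cardinal.mk A) where
  connected := cay_connected
  complete := by
    intro H hH
    obtain ⟨i, v, _, rfl⟩ := (isBlock_iff H).mp hH
    exact coset_complete i v
  card_block := by
    intro H hH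
    obtain ⟨i, v, _, rfl⟩ := (isBlock_iff H).mp hH
    exact coset_card i v
  card_blocks := by
    intro v
    refine (Cardinal.mk_congr (Equiv.ofBijective (fun i : ι =>
      (⟨ind (cay ι A) (coset i v), (isBlock_iff _).mpr ⟨i, v, mem_coset_self i v, rfl⟩,
        mem_coset_self i v⟩ : {H : (cay ι A).Subgraph // IsBlock (cay ι A) H ∧ v ∈ H.verts}))
      ?_)).symm
    constructor
    · intro i j hij
      have h := congrArg (fun H => SimpleGraph.Subgraph.verts H.1) hij
      simp only [ind_verts] at h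
      exact (coset_inj (h.le)).1
    · rintro ⟨H, hH, hv⟩
      obtain ⟨i, w, _, rfl⟩ := (isBlock_iff H).mp hH
      refine ⟨i, ?_⟩
      apply Subtype.ext
      have : coset i v = coset i w := coset_eq hv
      show ind (cay ι A) (coset i v) = ind (cay ι A) (coset i w)
      rw [this]

end Pool.Agent.U34.TL
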