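import Mathlib

/-!
Definitions for the problem on the automorphism groups of the tree-like graphs `T_{m,n}`.
-/

set_option autoImplicit false

namespace Pool.Agent.U34.TL

/-- A *block* of `G`: a maximal connected subgraph without a cut vertex of its own
(a vertex `v` of `K` is a cut vertex of `K` if `K` minus `v` is disconnected). -/
def IsBlock {V : Type*} (G : SimpleGraph V) (H : G.Subgraph) : Prop :=
  Maximal (fun K : G.Subgraph =>
    K.Connected ∧ ∀ v ∈ K.verts, (K.deleteVerts {v}).Preconnected) H

/-- `G` is a tree-like graph `T_{m,n}`: it is connected, every block is a complete graph on `n`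
vertices and every vertex lies in exactly `m` blocks. -/
structure IsTreeLike {V : Type*} (G : SimpleGraph V) (m n : Cardinal) : Prop where
  connected : G.Connected
  complete : ∀ H : G.Subgraph, IsBlock G H → ∀ u ∈ H.verts, ∀ v ∈ H.verts, u ≠ v → H.Adj u v
  card_block : ∀ H : G.Subgraph, IsBlock G H → Cardinal.mk H.verts = n
  card_blocks : ∀ v : V, Cardinal.mk {H : G.Subgraph // IsBlock G H ∧ v ∈ H.verts} = m

/-- The topology of pointwise convergence on the automorphism group of a graph (the vertex set is
discrete). -/
@[reducible]
def autTopology {V : Type*} (G : SimpleGraph V) : TopologicalSpace (G ≃g G) :=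
  TopologicalSpace.induced (fun f : G ≃g G => (fun v : V => f v))
    (@Pi.topologicalSpace V (fun _ => V) (fun _ => ⊥))

/-- A topological group is *amenable* if every continuous action of it on a nonempty compact
Hausdorff space has an invariant Borel probability measure. -/
def Amenable (Γ : Type*) [Group Γ] [TopologicalSpace Γ] : Prop :=
  ∀ (X : Type) [TopologicalSpace X] [CompactSpace X] [T2Space X] [Nonempty X] [MulAction Γ X],
    Continuous (fun p : Γ × X => p.1 • p.2) →
      ∃ μ : @MeasureTheory.Measure X (borel X), @MeasureTheory.IsProbabilityMeasure X (borel X) μ ∧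
        ∀ g : Γ, @MeasureTheory.Measure.map X X (borel X) (borel X) (fun x => g • x) μ = μ

end Pool.Agent.U34.TL
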