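import Pool.Agent.U34.TL.Word

/-! The graph of the free product of `ι` copies of `A`: separation properties. -/

set_option autoImplicit false

open Monoid Monoid.CoprodI

namespace Pool.Agent.U34.TL

variable {ι A : Type} [Group A]

/-- abbreviation for the free product -/
abbrev FP (ι A : Type) [Group A] := CoprodI (fun _ : ι => A)

/-- the letter `a` with index `i` -/
abbrev lt (i : ι) (a : A) : FP ι A := of (M := fun _ : ι => A) (i := i) a

/-- The graph on the free product: `x` and `y` are adjacent iff `y = a x` for a letter `a ≠ 1`. -/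
def cay (ι A : Type) [Group A] : SimpleGraph (FP ι A) where
  Adj x y := ∃ (i : ι) (a : A), a ≠ 1 ∧ y = lt i a * x
  symm := by
    constructor
    rintro x y ⟨i, a, ha, rfl⟩
    exact ⟨i, a⁻¹, inv_ne_one.mpr ha, by rw [← mul_assoc, ← map_mul]; simp⟩
  loopless := by
    constructor
    rintro x ⟨i, a, ha, h⟩
    have : lt i a = 1 := by
      have := h.symm
      rwa [mul_eq_right] at this
    exact of_ne_one ha this

lemma cay_adj {x y : FP ι A} : (cay ι A).Adj x y ↔ ∃ (i : ι) (a : A), a ≠ 1 ∧ y = lt i a * x :=
  Iff.rfl

/-- right multiplication -/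
def rmul (g : FP ι A) : cay ι A ≃g cay ι A where
  toEquiv := Equiv.mulRight g
  map_rel_iff' := by
    intro x y
    simp only [cay_adj, Equiv.coe_mulRight]
    constructor
    · rintro ⟨i, a, ha, h⟩
      exact ⟨i, a, ha, by rw [← mul_assoc] at h; exact mul_right_cancel h⟩
    · rintro ⟨i, a, ha, rfl⟩
      exact ⟨i, a, ha, by rw [mul_assoc]⟩

lemma rmul_apply (g x : FP ι A) : rmul g x = x * g := rfl

lemma ne_of_mul_inv_ne {x v : FP ι A} (h : x ≠ v) : x * v⁻¹ ≠ 1 := by
  intro h'
  exact h (mul_inv_eq_one.mp h')

/-- A walk avoiding `v` does not change the side of `v`. -/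
lemma sep {v : FP ι A} {w u : FP ι A} (p : (cay ι A).Walk w u) (hp : v ∉ p.support) :
    lst (w * v⁻¹) = lst (u * v⁻¹) := by
  induction p with
  | nil => rfl
  | @cons a b c h q ih =>
    rw [SimpleGraph.Walk.support_cons, List.mem_cons, not_or] at hp
    rw [← ih hp.2]
    have hb : b ≠ v := by
      rintro rfl
      exact hp.2 q.start_mem_support
    obtain ⟨i, x, hx, rfl⟩ := h
    have h1 := ne_of_mul_inv_ne (Ne.symm hp.1)
    have h2 := ne_of_mul_inv_ne hb
    rw [mul_assoc] at h2 ⊢
    exact (lst_mul x (a * v⁻¹) h1 h2).symm

/-- Every vertex on the side `i` of `v` is joined to the neighbour `b v` by a walk avoiding `v`. -/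
lemma reach {v : FP ι A} {i : ι} {b : A} (hb : b ≠ 1) (w : FP ι A)
    (hw : lst (w * v⁻¹) = some i) :
    ∃ p : (cay ι A).Walk w (lt i b * v), v ∉ p.support := by
  have key : ∀ W : Word (fun _ : ι => A), lst W.prod = some i →
      ∃ p : (cay ι A).Walk (W.prod * v) (lt i b * v), v ∉ p.support := by
    intro W
    induction W using Word.consRecOn with
    | empty =>
      intro h
      rw [Word.prod_empty, lst_one] at h
      cases h
    | cons j m W h1 h2 ih =>
      intro h
      have hne : (Word.cons m W h1 h2).prod * v ≠ v := by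
        intro h'
        rw [mul_eq_right] at h'
        rw [h', lst_one] at h
        cases h
      have hbv : lt i b * v ≠ v := by
        intro h'
        rw [mul_eq_right] at h'
        exact of_ne_one hb h'
      by_cases hW : W.prod = 1
      · have e : (Word.cons m W h1 h2).prod = lt j m := by
          rw [Word.prod_cons, hW, mul_one]
        rw [e] at h hne ⊢
        rw [lst_of h2] at h
        have hji : j = i := Option.some.inj h
        subst hji
        by_cases hmb : m = b
        · subst hmb
          refine ⟨SimpleGraph.Walk.nil, ?_⟩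
          rw [SimpleGraph.Walk.support_nil, List.mem_singleton]
          exact fun h => hne h.symm
        · have hadj : (cay ι A).Adj (lt j m * v) (lt j b * v) := by
            refine ⟨j, b * m⁻¹, ?_, ?_⟩
            · intro h
              exact hmb (mul_inv_eq_one.mp h).symm
            · rw [← mul_assoc, ← map_mul]
              simp
          refine ⟨SimpleGraph.Walk.cons hadj SimpleGraph.Walk.nil, ?_⟩
          rw [SimpleGraph.Walk.support_cons, SimpleGraph.Walk.support_nil, List.mem_cons,
            List.mem_singleton, not_or]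
          exact ⟨fun h => hne h.symm, fun h => hbv h.symm⟩
      · have e : (Word.cons m W h1 h2).prod = lt j m * W.prod := by
          rw [Word.prod_cons]
        have hx1 : lt j m * W.prod ≠ 1 := by
          rw [← e]
          intro h'
          rw [h', lst_one] at h
          cases h
        have hl : lst W.prod = some i := by
          rw [← h, e, lst_mul m W.prod hW hx1]
        obtain ⟨p, hp⟩ := ih hl
        have hadj : (cay ι A).Adj ((Word.cons m W h1 h2).prod * v) (W.prod * v) := by
          refine ⟨j, m⁻¹, inv_ne_one.mpr h2, ?_⟩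
          rw [e, ← mul_assoc, ← mul_assoc, ← map_mul]
          simp
        refine ⟨SimpleGraph.Walk.cons hadj p, ?_⟩
        rw [SimpleGraph.Walk.support_cons, List.mem_cons, not_or]
        exact ⟨fun h => hne h.symm, hp⟩
  obtain ⟨W, hW⟩ := exists_word (w * v⁻¹)
  rw [← hW] at hw
  have := key W hw
  rwa [hW, inv_mul_cancel_right] at this

lemma adj_letter {v : FP ι A} {i : ι} {b : A} (hb : b ≠ 1) : (cay ι A).Adj v (lt i b * v) :=
  ⟨i, b, hb, rfl⟩

lemma cay_connected [Nonempty ι] : (cay ι A).Connected := by
  have h1 : ∀ x : FP ι A, (cay ι A).Reachable x 1 := by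
    intro x
    by_cases hx : x = 1
    · rw [hx]
    · have hne : lst (x * (1 : FP ι A)⁻¹) ≠ none := by
        rw [inv_one, mul_one]
        exact fun h => hx (lst_eq_none h)
      obtain ⟨i, hi⟩ := Option.ne_none_iff_exists'.mp hne
      -- some letter different from one exists
      obtain ⟨W, hW⟩ := exists_word x
      obtain ⟨b, hb⟩ : ∃ b : A, b ≠ 1 := by
        rcases word_cases W with rfl | ⟨j, b, _, _, hb, _⟩
        · exact absurd (hW ▸ Word.prod_empty) hx
        · exact ⟨b, hb⟩
      obtain ⟨p, _⟩ := reach (v := 1) (i := i) hb x hi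
      exact p.reachable.trans (adj_letter hb).symm.reachable
  haveI : Nonempty (FP ι A) := ⟨1⟩
  exact SimpleGraph.Connected.mk (fun x y => (h1 x).trans (h1 y).symm)

end Pool.Agent.U34.TL
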