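import Pool.Agent.U34.TL.Defs

/-! The compact space of half-spaces and the numbers given by an invariant measure. -/

set_option autoImplicit false

open Topology

namespace Pool.Agent.U34.TL

variable {V : Type}

open Classical in
/-- `cw G w (u, v)` is true iff every walk from `w` to `u` passes through `v` -/
noncomputable def cw (G : SimpleGraph V) (w : V) : V × V → Bool :=
  fun e => decide (∀ p : G.Walk w e.1, e.2 ∈ p.support)

lemma cw_true {G : SimpleGraph V} {w : V} {e : V × V} :
    cw G w e = true ↔ ∀ p : G.Walk w e.1, e.2 ∈ p.support := by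
  classical
  unfold cw
  simp

lemma cw_false {G : SimpleGraph V} {w : V} {e : V × V} :
    cw G w e = false ↔ ∃ p : G.Walk w e.1, e.2 ∉ p.support := by
  classical
  unfold cw
  simp

/-- the action on functions of pairs -/
def act {G : SimpleGraph V} (g : G ≃g G) (x : V × V → Bool) : V × V → Bool :=
  fun e => x (g.symm e.1, g.symm e.2)

lemma walk_iso1 {G : SimpleGraph V} (h : G ≃g G) {a b c : V}
    (H : ∀ p : G.Walk (h a) (h b), h c ∈ p.support) (p : G.Walk a b) : c ∈ p.support := by
  have := H (p.map h.toHom)
  rw [SimpleGraph.Walk.support_map, List.mem_map] at this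
  obtain ⟨d, hd, hdc⟩ := this
  have : d = c := h.injective hdc
  rwa [this] at hd

lemma walk_iso {G : SimpleGraph V} (h : G ≃g G) {a b c : V} :
    (∀ p : G.Walk (h a) (h b), h c ∈ p.support) ↔ ∀ p : G.Walk a b, c ∈ p.support := by
  constructor
  · exact fun H => walk_iso1 h H
  · intro H
    apply walk_iso1 h.symm
    rw [RelIso.symm_apply_apply, RelIso.symm_apply_apply, RelIso.symm_apply_apply]
    exact H

lemma act_cw {G : SimpleGraph V} (g : G ≃g G) (w : V) : act g (cw G w) = cw G (g w) := by
  funext e
  obtain ⟨u, v⟩ := e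
  rw [Bool.eq_iff_iff, act, cw_true, cw_true]
  have := walk_iso g (a := w) (b := g.symm u) (c := g.symm v)
  rw [RelIso.apply_symm_apply, RelIso.apply_symm_apply] at this
  exact this.symm

/-- the compact space -/
def XX (G : SimpleGraph V) : Set (V × V → Bool) := closure (Set.range (cw G))

lemma act_continuous {G : SimpleGraph V} (g : G ≃g G) : Continuous (act g) :=
  continuous_pi fun _ => continuous_apply _

lemma act_mem {G : SimpleGraph V} (g : G ≃g G) {x : V × V → Bool} (hx : x ∈ XX G) :
    act g x ∈ XX G := by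
  refine map_mem_closure (act_continuous g) hx ?_
  rintro _ ⟨w, rfl⟩
  exact ⟨g w, (act_cw g w).symm⟩

instance (G : SimpleGraph V) : MulAction (G ≃g G) (XX G) where
  smul g x := ⟨act g x.1, act_mem g x.2⟩
  one_smul _ := rfl
  mul_smul _ _ _ := rfl

lemma smul_val {G : SimpleGraph V} (g : G ≃g G) (x : XX G) (e : V × V) :
    (g • x).1 e = x.1 (g.symm e.1, g.symm e.2) := rfl

instance (G : SimpleGraph V) : CompactSpace (XX G) :=
  isCompact_iff_compactSpace.mp (isClosed_closure.isCompact)

lemma XX_nonempty {G : SimpleGraph V} (w : V) : Nonempty (XX G) :=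
  ⟨⟨cw G w, subset_closure ⟨w, rfl⟩⟩⟩

/-- relations between two coordinates pass to the closure -/
lemma XX_rel {G : SimpleGraph V} {e e' : V × V} {b : Bool}
    (h : ∀ w, ¬ (cw G w e = b ∧ cw G w e' = b)) (x : XX G) : ¬ (x.1 e = b ∧ x.1 e' = b) := by
  have hc : IsClosed {y : V × V → Bool | ¬ (y e = b ∧ y e' = b)} := by
    have : IsOpen {y : V × V → Bool | y e = b ∧ y e' = b} := by
      apply IsOpen.inter
      · exact (isOpen_discrete ({b} : Set Bool)).preimage
          (show Continuous (fun y : V × V → Bool => y e) from continuous_apply e)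
      · exact (isOpen_discrete ({b} : Set Bool)).preimage
          (show Continuous (fun y : V × V → Bool => y e') from continuous_apply e')
    exact this.isClosed_compl
  have hs : XX G ⊆ {y : V × V → Bool | ¬ (y e = b ∧ y e' = b)} := by
    apply closure_minimal _ hc
    rintro _ ⟨w, rfl⟩
    exact h w
  exact hs x.2

lemma isOpen_aut (G : SimpleGraph V) (a b : V) :
    @IsOpen _ (autTopology G) {g : G ≃g G | g a = b} := by
  let τ : TopologicalSpace V := ⊥
  have hd : DiscreteTopology V := ⟨rfl⟩
  refine isOpen_induced_iff.mpr ⟨{f : V → V | f a = b}, ?_, rfl⟩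
  exact (isOpen_discrete ({b} : Set V)).preimage
    (show Continuous (fun f : V → V => f a) from continuous_apply a)

lemma act_jointly (G : SimpleGraph V) :
    @Continuous _ _ (@instTopologicalSpaceProd _ _ (autTopology G) _) _
      (fun p : (G ≃g G) × XX G => p.1 • p.2) := by
  letI := autTopology G
  apply Continuous.subtype_mk
  apply continuous_pi
  rintro ⟨u, v⟩
  rw [continuous_iff_continuousAt]
  rintro ⟨g, x⟩
  have h1 : Continuous (fun p : (G ≃g G) × XX G => p.2.1 (g.symm u, g.symm v)) :=
    (continuous_apply (g.symm u, g.symm v)).comp (continuous_subtype_val.comp continuous_snd)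
  refine h1.continuousAt.congr ?_
  have h2 : {g' : G ≃g G | g' (g.symm u) = u} ∩ {g' : G ≃g G | g' (g.symm v) = v} ∈ 𝓝 g := by
    apply IsOpen.mem_nhds ((isOpen_aut G _ _).inter (isOpen_aut G _ _))
    constructor
    · exact RelIso.apply_symm_apply g u
    · exact RelIso.apply_symm_apply g v
  have h3 : ∀ᶠ p : (G ≃g G) × XX G in 𝓝 (g, x),
      p.1 ∈ {g' : G ≃g G | g' (g.symm u) = u} ∩ {g' : G ≃g G | g' (g.symm v) = v} :=
    continuous_fst.continuousAt.eventually h2
  filter_upwards [h3] with p hp
  have e1 : p.1.symm u = g.symm u := by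
    rw [RelIso.symm_apply_eq]; exact hp.1.symm
  have e2 : p.1.symm v = g.symm v := by
    rw [RelIso.symm_apply_eq]; exact hp.2.symm
  show p.2.1 (g.symm u, g.symm v) = p.2.1 (p.1.symm u, p.1.symm v)
  rw [e1, e2]

open MeasureTheory in
/-- The numbers given by an invariant measure. -/
lemma exists_P (G : SimpleGraph V) [Nonempty V]
    (h : @Amenable (G ≃g G) _ (autTopology G)) :
    ∃ P : V × V → ℝ, (∀ (g : G ≃g G) (u v : V), P (g u, g v) = P (u, v)) ∧
      (∀ s : Finset (V × V), (∀ e ∈ s, ∀ e' ∈ s, e ≠ e' →
        ∀ w, ¬ (cw G w e = true ∧ cw G w e' = true)) → ∑ e ∈ s, P e ≤ 1) ∧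
      (∀ s : Finset (V × V), (∀ e ∈ s, ∀ e' ∈ s, e ≠ e' →
        ∀ w, ¬ (cw G w e = false ∧ cw G w e' = false)) → ∑ e ∈ s, (1 - P e) ≤ 1) := by
  haveI : Nonempty (XX G) := XX_nonempty (Classical.arbitrary V)
  obtain ⟨μ, hμ, hinv⟩ := @h (XX G) _ _ _ _ _ (act_jointly G)
  letI : MeasurableSpace (XX G) := borel _
  haveI : BorelSpace (XX G) := ⟨rfl⟩
  haveI : IsProbabilityMeasure μ := hμ
  let C : Bool → V × V → Set (XX G) := fun b e => {x | x.1 e = b}
  have hopen : ∀ b e, IsOpen (C b e) := fun b e =>
    (isOpen_discrete ({b} : Set Bool)).preimage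
      (show Continuous (fun x : XX G => x.1 e) from
        (continuous_apply e).comp continuous_subtype_val)
  have hmeas : ∀ b e, MeasurableSet (C b e) := fun b e => (hopen b e).measurableSet
  have hsum : ∀ (b : Bool) (s : Finset (V × V)), (∀ e ∈ s, ∀ e' ∈ s, e ≠ e' →
        ∀ w, ¬ (cw G w e = b ∧ cw G w e' = b)) → ∑ e ∈ s, (μ (C b e)).toReal ≤ 1 := by
    intro b s hs
    have h1 : ∑ e ∈ s, μ (C b e) ≤ μ Set.univ := by
      apply sum_measure_le_measure_univ
      · intro e _
        exact (hmeas b e).nullMeasurableSet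
      · intro e he e' he' hne
        apply Disjoint.aedisjoint
        rw [Set.disjoint_left]
        intro x hx hx'
        exact XX_rel (hs e he e' he' hne) x ⟨hx, hx'⟩
    rw [measure_univ] at h1
    rw [← ENNReal.toReal_sum (fun e _ => measure_ne_top μ _)]
    have := ENNReal.toReal_mono ENNReal.one_ne_top h1
    simpa using this
  have hcompl : ∀ e, (μ (C false e)).toReal = 1 - (μ (C true e)).toReal := by
    intro e
    have : C false e = (C true e)ᶜ := by
      ext x
      simp [C]
    rw [this, prob_compl_eq_one_sub (hmeas true e),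
      ENNReal.toReal_sub_of_le prob_le_one ENNReal.one_ne_top]
    simp
  refine ⟨fun e => (μ (C true e)).toReal, ?_, hsum true, ?_⟩
  · intro g u v
    have h1 := hinv g
    have hcont : Continuous (fun x : XX G => g • x) := by
      apply Continuous.subtype_mk
      exact (act_continuous g).comp continuous_subtype_val
    have h2 : μ (C true (g u, g v)) = μ (C true (u, v)) := by
      conv_lhs => rw [← h1]
      rw [Measure.map_apply hcont.measurable (hmeas _ _)]
      congr 1
      ext x
      show (g • x).1 (g u, g v) = true ↔ x.1 (u, v) = true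
      rw [smul_val]
      simp only [RelIso.symm_apply_apply]
    show (μ (C true (g u, g v))).toReal = (μ (C true (u, v))).toReal
    rw [h2]
  · intro s hs
    have := hsum false s hs
    simpa only [hcompl] using this

end Pool.Agent.U34.TL
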