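import Pool.Agent.U34.TL.Blocks
import Pool.Agent.U34.TL.Space

/-! The automorphism group of the graph of the free product is not amenable. -/

set_option autoImplicit false

open Monoid Monoid.CoprodI

namespace Pool.Agent.U34.TL

variable {ι A : Type} [Group A]

lemma lt_mul_ne {i : ι} {b : A} (hb : b ≠ 1) (v : FP ι A) : lt i b * v ≠ v := by
  intro h
  rw [mul_eq_right] at h
  exact of_ne_one hb h

/-- two vertices of a coset: no vertex lies in both half spaces -/
lemma disj_block {i : ι} {b a a' : A} (hb : b ≠ 1) (haa : a ≠ a') (w : FP ι A) :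
    ¬ (cw (cay ι A) w (lt i b * lt i a, lt i a) = true ∧
       cw (cay ι A) w (lt i b * lt i a', lt i a') = true) := by
  classical
  rintro ⟨h1, h2⟩
  rw [cw_true] at h1 h2
  simp only at h1 h2
  have hvv' : lt i a * (lt i a')⁻¹ = lt i (a * a'⁻¹) := by rw [← map_inv, ← map_mul]
  have hne : a * a'⁻¹ ≠ 1 := fun h => haa (mul_inv_eq_one.mp h)
  have hlst : lst (lt i a * (lt i a')⁻¹) = some i := by rw [hvv', lst_of hne]
  have hvne : lt i a ≠ lt i a' := fun h => haa (of_injective i h)
  by_cases hw : w = lt i a
  · -- walk from v to u' avoiding v'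
    rw [hw] at h2
    obtain ⟨p, hp⟩ := reach (v := lt i a') hb (lt i a) hlst
    exact hp (h2 p)
  · -- w is on another side of v
    have hn : lst (w * (lt i a)⁻¹) ≠ none := fun h => ne_of_mul_inv_ne hw (lst_eq_none h)
    obtain ⟨j, hj⟩ := Option.ne_none_iff_exists'.mp hn
    have hji : j ≠ i := by
      rintro rfl
      obtain ⟨p, hp⟩ := reach (v := lt j a) hb w hj
      exact hp (h1 p)
    obtain ⟨p, hp⟩ := reach (v := lt i a) hb w hj
    -- the walk p from w to b_j v avoids v; it avoids v' too
    have hv' : lt i a' ∉ p.support := by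
      intro hmem
      have hq : lt i a ∉ (p.takeUntil _ hmem).support := fun h =>
        hp (p.support_takeUntil_subset_support hmem h)
      have e := sep (p.takeUntil _ hmem) hq
      rw [hj] at e
      have e2 : lst (lt i a' * (lt i a)⁻¹) = some i := by
        have : lt i a' * (lt i a)⁻¹ = lt i (a' * a⁻¹) := by rw [← map_inv, ← map_mul]
        rw [this, lst_of (fun h => haa (mul_inv_eq_one.mp h).symm)]
      rw [e2] at e
      exact hji (Option.some.inj e)
    have hadj : (cay ι A).Adj (lt j b * lt i a) (lt i a) := (adj_letter hb).symm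
    have hq : lt i a' ∉ (p.append (SimpleGraph.Walk.cons hadj SimpleGraph.Walk.nil)).support := by
      rw [SimpleGraph.Walk.mem_support_append_iff, not_or]
      refine ⟨hv', ?_⟩
      rw [SimpleGraph.Walk.support_cons, SimpleGraph.Walk.support_nil, List.mem_cons,
        List.mem_singleton, not_or]
      refine ⟨?_, fun h => hvne h.symm⟩
      intro h
      apply hv'
      rw [h]
      exact p.end_mem_support
    have e := sep _ hq
    rw [hlst] at e
    obtain ⟨r, hr⟩ := reach (v := lt i a') hb w e
    exact hr (h2 r)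

/-- two blocks at a vertex -/
lemma disj_vertex {i j : ι} {b : A} (hb : b ≠ 1) (hij : i ≠ j) (w : FP ι A) :
    ¬ (cw (cay ι A) w (lt i b, 1) = false ∧ cw (cay ι A) w (lt j b, 1) = false) := by
  rintro ⟨h1, h2⟩
  rw [cw_false] at h1 h2
  obtain ⟨p, hp⟩ := h1
  obtain ⟨q, hq⟩ := h2
  have e1 := sep p hp
  have e2 := sep q hq
  simp only [inv_one, mul_one] at e1 e2
  rw [lst_of hb] at e1 e2
  rw [e1] at e2
  exact hij (Option.some.inj e2)

/-- The automorphism group is not amenable. -/
theorem cay_not_amenable (F : Finset ι) (S : Finset A)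
    (h : (F.card = 3 ∧ S.card = 2) ∨ (F.card = 2 ∧ S.card = 3)) :
    ¬ @Amenable (cay ι A ≃g cay ι A) _ (autTopology (cay ι A)) := by
  classical
  intro hA
  haveI : Nonempty (FP ι A) := ⟨1⟩
  obtain ⟨P, hinv, hC, hD⟩ := exists_P (cay ι A) hA
  have hS1 : 1 < S.card := by rcases h with h | h <;> omega
  obtain ⟨b, hb⟩ : ∃ b : A, b ≠ 1 := by
    obtain ⟨x, hx, y, hy, hxy⟩ := Finset.one_lt_card.mp hS1
    by_cases h1 : x = 1
    · exact ⟨y, fun h2 => hxy (h1.trans h2.symm)⟩
    · exact ⟨x, h1⟩
  have hp : ∀ i ∈ F, (S.card : ℝ) * P (lt i b, 1) ≤ 1 := by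
    intro i _
    have hinj : Set.InjOn (fun a : A => ((lt i b * lt i a, lt i a) : FP ι A × FP ι A)) S := by
      intro a _ a' _ haa
      have := congrArg Prod.snd haa
      exact of_injective i this
    have h1 := hC (S.image (fun a : A => ((lt i b * lt i a, lt i a) : FP ι A × FP ι A))) (by
      intro e he e' he' hne w
      rw [Finset.mem_image] at he he'
      obtain ⟨a, _, rfl⟩ := he
      obtain ⟨a', _, rfl⟩ := he'
      apply disj_block hb
      rintro rfl
      exact hne rfl)
    rw [Finset.sum_image hinj] at h1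
    have h2 : ∀ a ∈ S, P (lt i b * lt i a, lt i a) = P (lt i b, 1) := by
      intro a _
      have := hinv (rmul (lt i a)) (lt i b) 1
      rw [rmul_apply, rmul_apply, one_mul] at this
      exact this
    rw [Finset.sum_congr rfl h2, Finset.sum_const, nsmul_eq_mul] at h1
    exact h1
  have hq : ∑ i ∈ F, (1 - P (lt i b, 1)) ≤ 1 := by
    have hinj : Set.InjOn (fun i : ι => ((lt i b, 1) : FP ι A × FP ι A)) F := by
      intro i _ j _ hij
      have := congrArg Prod.fst hij
      have h2 := congrArg lst this
      rw [lst_of hb, lst_of hb] at h2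
      exact Option.some.inj h2
    have h1 := hD (F.image (fun i : ι => ((lt i b, 1) : FP ι A × FP ι A))) (by
      intro e he e' he' hne w
      rw [Finset.mem_image] at he he'
      obtain ⟨i, _, rfl⟩ := he
      obtain ⟨j, _, rfl⟩ := he'
      apply disj_vertex hb
      rintro rfl
      exact hne rfl)
    rwa [Finset.sum_image hinj] at h1
  rcases h with ⟨hF, hS⟩ | ⟨hF, hS⟩
  · have h1 : ∀ i ∈ F, (1 / 2 : ℝ) ≤ 1 - P (lt i b, 1) := by
      intro i hi
      have := hp i hi
      rw [hS] at this
      push_cast at this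
      linarith
    have h2 := Finset.sum_le_sum h1
    rw [Finset.sum_const, hF, nsmul_eq_mul] at h2
    push_cast at h2
    linarith
  · have h1 : ∀ i ∈ F, (2 / 3 : ℝ) ≤ 1 - P (lt i b, 1) := by
      intro i hi
      have := hp i hi
      rw [hS] at this
      push_cast at this
      linarith
    have h2 := Finset.sum_le_sum h1
    rw [Finset.sum_const, hF, nsmul_eq_mul] at h2
    push_cast at h2
    linarith

end Pool.Agent.U34.TL
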