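import Pool.Agent.U34.TL.Defs

/-! The last index of a reduced word in a free product, and the graph of the free product. -/

set_option autoImplicit false

open Monoid Monoid.CoprodI

namespace Pool.Agent.U34.TL

variable {ι A : Type} [Group A]

open Classical in
/-- The index of the last letter of the reduced word of an element of the free product of
copies of `A`. -/
noncomputable def lst (x : CoprodI (fun _ : ι => A)) : Option ι :=
  (Word.equiv x).toList.getLast?.map Sigma.fst

/-- last index of a word -/
def lw (w : Word (fun _ : ι => A)) : Option ι := w.toList.getLast?.map Sigma.fst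

open Classical in
lemma lst_prod (w : Word (fun _ : ι => A)) : lst w.prod = lw w := by
  unfold lst lw
  congr 3
  exact Word.equiv.apply_symm_apply w

lemma lw_empty : lw (Word.empty : Word (fun _ : ι => A)) = none := rfl

lemma lw_cons_empty {i : ι} (a : A) (h1) (h2) :
    lw (Word.cons a (Word.empty : Word (fun _ : ι => A)) (i := i) h1 h2) = some i := rfl

lemma lw_cons {i : ι} (a : A) (w : Word (fun _ : ι => A)) (h1) (h2) (hw : w ≠ Word.empty) :
    lw (Word.cons a w (i := i) h1 h2) = lw w := by
  unfold lw
  have : w.toList ≠ [] := by
    intro h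
    exact hw (Word.ext h)
  simp only [Word.cons_toList]
  rw [List.getLast?_cons_of_ne_nil this]

lemma word_cases (w : Word (fun _ : ι => A)) :
    w = Word.empty ∨ ∃ (i : ι) (a : A) (w' : Word (fun _ : ι => A)) (h1 : w'.fstIdx ≠ some i)
      (h2 : a ≠ 1), w = Word.cons a w' h1 h2 := by
  induction w using Word.consRecOn with
  | empty => exact Or.inl rfl
  | cons i m w h1 h2 _ => exact Or.inr ⟨i, m, w, h1, h2, rfl⟩

open Classical in
lemma exists_word (x : CoprodI (fun _ : ι => A)) : ∃ w : Word (fun _ : ι => A), w.prod = x :=
  ⟨Word.equiv x, Word.equiv.symm_apply_apply x⟩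

open Classical in
lemma prod_inj {w w' : Word (fun _ : ι => A)} (h : w.prod = w'.prod) : w = w' :=
  Word.equiv.symm.injective h

lemma lst_one : lst (1 : CoprodI (fun _ : ι => A)) = none := by
  rw [← Word.prod_empty, lst_prod, lw_empty]

lemma lst_eq_none {x : CoprodI (fun _ : ι => A)} (h : lst x = none) : x = 1 := by
  obtain ⟨w, rfl⟩ := exists_word x
  rw [lst_prod] at h
  induction w using Word.consRecOn with
  | empty => rfl
  | cons i m w h1 h2 ih =>
    exfalso
    by_cases hw : w = Word.empty
    · subst hw
      rw [lw_cons_empty] at h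
      cases h
    · rw [lw_cons m w h1 h2 hw] at h
      have := ih h
      rw [← Word.prod_empty] at this
      exact hw (prod_inj this)

lemma lst_of {i : ι} {a : A} (ha : a ≠ 1) :
    lst (of (M := fun _ : ι => A) (i := i) a) = some i := by
  have : of (M := fun _ : ι => A) (i := i) a =
      (Word.cons a Word.empty (i := i) (by simp [Word.fstIdx]) ha).prod := by
    rw [Word.prod_cons, Word.prod_empty, mul_one]
  rw [this, lst_prod, lw_cons_empty]

lemma of_ne_one {i : ι} {a : A} (ha : a ≠ 1) : of (M := fun _ : ι => A) (i := i) a ≠ 1 := by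
  intro h
  have := lst_of (i := i) ha
  rw [h, lst_one] at this
  cases this

/-- the last index does not change under left multiplication by a letter -/
lemma lst_mul {i : ι} (a : A) (x : CoprodI (fun _ : ι => A)) (hx : x ≠ 1)
    (hax : of (M := fun _ : ι => A) (i := i) a * x ≠ 1) :
    lst (of (M := fun _ : ι => A) (i := i) a * x) = lst x := by
  by_cases ha : a = 1
  · subst ha; simp
  obtain ⟨w, rfl⟩ := exists_word x
  rcases word_cases w with rfl | ⟨j, b, w', h1, h2, rfl⟩
  · exact absurd (Word.prod_empty) hx
  by_cases hij : j = i
  · subst hij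
    have e : of (M := fun _ : ι => A) (i := j) a * (Word.cons b w' h1 h2).prod
        = of (M := fun _ : ι => A) (i := j) (a * b) * w'.prod := by
      rw [Word.prod_cons, ← mul_assoc, ← map_mul]
    rw [e] at hax ⊢
    by_cases hab : a * b = 1
    · rw [hab, map_one, one_mul] at hax ⊢
      have hw' : w' ≠ Word.empty := by
        rintro rfl
        exact hax Word.prod_empty
      rw [lst_prod, lst_prod, lw_cons b w' h1 h2 hw']
    · rw [← Word.prod_cons j (a * b) w' hab h1, lst_prod, lst_prod]
      by_cases hw' : w' = Word.empty
      · subst hw'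
        rw [lw_cons_empty, lw_cons_empty]
      · rw [lw_cons _ w' _ _ hw', lw_cons _ w' _ _ hw']
  · have hf : (Word.cons b w' h1 h2).fstIdx ≠ some i := by
      rw [Word.fstIdx_cons]
      intro h
      exact hij (Option.some.inj h)
    rw [← Word.prod_cons i a (Word.cons b w' h1 h2) ha hf, lst_prod, lst_prod]
    rw [lw_cons]
    intro h
    have := congrArg Word.toList h
    simp [Word.cons, Word.empty] at this

end Pool.Agent.U34.TL
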